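import Pool.Agent.H26.OBdd

set_option autoImplicit false

namespace Pool.Agent.Results.MP_913206_gt.NoExample

open Set Topology Filter Pointwise Pool.Agent.H26.OBdd

universe u

/-- `S_fin(𝒪_nbd, 𝒪)`: for all proper open neighbourhoods `U n` of the identity one can choose
finitely many members of each cover `{g • U n : g ∈ G}` so that all chosen sets cover `G`. -/
def MengerBounded (G : Type u) [Group G] [TopologicalSpace G] : Prop :=
  ∀ U : ℕ → Set G, (∀ n, IsOpen (U n) ∧ (1 : G) ∈ U n ∧ U n ≠ univ) →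
    ∃ 𝓕 : ℕ → Set (Set G), (∀ n, (𝓕 n).Finite ∧ 𝓕 n ⊆ {V | ∃ g : G, V = g • U n}) ∧
      ⋃₀ (⋃ n, 𝓕 n) = univ

/-- An open `γ`-cover. -/
def IsGammaCover {X : Type u} [TopologicalSpace X] (𝒱 : Set (Set X)) : Prop :=
  (∀ V ∈ 𝒱, IsOpen V) ∧ univ ∉ 𝒱 ∧ ⋃₀ 𝒱 = univ ∧ 𝒱.Infinite ∧
    ∀ x : X, {V | V ∈ 𝒱 ∧ x ∉ V}.Finite

/-- `S₁(Ω_nbd, Γ)`: for all open neighbourhoods `U n` of the identity with `F * U n ≠ G` for
finite `F`, one can choose a member of each cover `{F * U n : F finite}` so that the chosen sets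
form a `γ`-cover. -/
def HurewiczBounded (G : Type u) [Group G] [TopologicalSpace G] : Prop :=
  ∀ U : ℕ → Set G, (∀ n, IsOpen (U n) ∧ (1 : G) ∈ U n ∧
      ∀ F : Set G, F.Finite → F * U n ≠ univ) →
    ∃ V : ℕ → Set G, (∀ n, ∃ F : Set G, F.Finite ∧ V n = F * U n) ∧ IsGammaCover (range V)

/-- Every analytic (metrizable, continuous image of the Baire space) Menger-bounded topological
group is Hurewicz-bounded. -/
theorem result (G : Type u) [Group G] [TopologicalSpace G] [IsTopologicalGroup G]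
    [TopologicalSpace.MetrizableSpace G]
    (hA : ∃ φ : (ℕ → ℕ) → G, Continuous φ ∧ Function.Surjective φ)
    (hM : MengerBounded G) : HurewiczBounded G := by
  classical
  obtain ⟨φ, hφ, hs⟩ := hA
  have : FirstCountableTopology G := by
    letI := TopologicalSpace.metrizableSpaceMetric G
    infer_instance
  obtain ⟨d, h⟩ := exists_LD (G := G)
  rcases dichotomy h φ hφ with ⟨K, hK, hKb⟩ | ⟨c, hc, hF⟩
  · intro U hU
    rw [hs.range_eq] at hK
    have h1 : ∀ n, ∃ F : Set G, F.Finite ∧ ∀ j ≤ n, K j ⊆ F * U n := by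
      intro n
      obtain ⟨ε, hε, hsub⟩ := h.basis _ ((hU n).1.mem_nhds (hU n).2.1)
      choose F hF using fun j => hKb j ε hε
      refine ⟨⋃ j ∈ Iic n, (F j : Set G), (finite_Iic n).biUnion fun j _ => (F j).finite_toSet,
        fun j hj g hg => ?_⟩
      obtain ⟨f, hf, hfg⟩ := hF j g hg
      rw [h.one] at hfg
      exact ⟨f, mem_iUnion₂.2 ⟨j, hj, hf⟩, f⁻¹ * g, hsub hfg, by simp⟩
    choose F hF hFK using h1
    have h2 : ∀ x : G, ∃ m, ∀ n ≥ m, x ∈ F n * U n := by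
      intro x
      obtain ⟨m, hm⟩ := mem_iUnion.1 (hK (mem_univ x))
      exact ⟨m, fun n hn => hFK n m hn hm⟩
    refine ⟨fun n => F n * U n, fun n => ⟨F n, hF n, rfl⟩, ?_, ?_, ?_, ?_, ?_⟩
    · rintro _ ⟨n, rfl⟩
      exact (hU n).1.mul_left
    · rintro ⟨n, hn⟩
      exact (hU n).2.2 _ (hF n) hn
    · rw [eq_univ_iff_forall]
      intro x
      obtain ⟨m, hm⟩ := h2 x
      exact ⟨_, ⟨m, rfl⟩, hm m le_rfl⟩
    · intro hfin
      have hne : ∀ V ∈ range (fun n => F n * U n), ∃ x, x ∉ V := by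
        rintro _ ⟨n, rfl⟩
        exact (ne_univ_iff_exists_notMem _).1 ((hU n).2.2 _ (hF n))
      choose! x hx using hne
      choose m hm using h2
      obtain ⟨N, hN⟩ := (hfin.image fun V => m (x V)).bddAbove
      exact hx _ ⟨N, rfl⟩ (hm _ N (hN ⟨_, ⟨N, rfl⟩, rfl⟩))
    · intro x
      obtain ⟨m, hm⟩ := h2 x
      refine ((finite_Iio m).image fun n => F n * U n).subset ?_
      rintro _ ⟨⟨n, rfl⟩, hn⟩
      refine ⟨n, ?_, rfl⟩
      by_contra hlt
      exact hn (hm n (not_lt.1 hlt))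
  · exfalso
    obtain ⟨g₀, hg₀⟩ := hF fun _ => {1}
    obtain ⟨𝓕, h1, h2⟩ := hM (fun n => {g | d 1 g < c / (n + 1)}) fun n =>
      ⟨isOpen_lt (h.continuous 1) continuous_const, by
        show d 1 1 < _
        rw [h.self]; positivity, fun hu => by
        have : g₀ ∈ {g | d 1 g < c / (n + 1)} := hu ▸ mem_univ _
        exact absurd this (not_lt.2 (hg₀ n 1 (Finset.mem_singleton_self _)))⟩
    choose! γ hγ using fun n V (hV : V ∈ 𝓕 n) => (h1 n).2 hV
    obtain ⟨g, hg⟩ := hF fun n => ((h1 n).1.image (γ n)).toFinset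
    obtain ⟨V, hV, hgV⟩ : g ∈ ⋃₀ (⋃ n, 𝓕 n) := h2 ▸ mem_univ g
    obtain ⟨n, hn⟩ := mem_iUnion.1 hV
    rw [hγ n V hn, mem_smul_set_iff_inv_smul_mem] at hgV
    have h3 : d 1 ((γ n V)⁻¹ * g) < c / (n + 1) := hgV
    rw [← h.one] at h3
    exact absurd h3 (not_lt.2 (hg n _ (by simpa using ⟨V, hn, rfl⟩)))

end Pool.Agent.Results.MP_913206_gt.NoExample
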